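import Mathlib

open Set Topology


namespace R594.Img

universe u v w w'

/-- The set of points of `Y` whose fibre under `f` is contained in `G`. -/
def ker {X : Type u} {Y : Type v} (f : X → Y) (G : Set X) : Set Y := {y | f ⁻¹' {y} ⊆ G}

theorem mem_ker {X : Type u} {Y : Type v} {f : X → Y} {G : Set X} {y : Y} :
    y ∈ ker f G ↔ f ⁻¹' {y} ⊆ G := Iff.rfl

theorem isOpen_ker {X : Type u} {Y : Type v} [TopologicalSpace X] [TopologicalSpace Y]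
    {f : X → Y} (hf : IsClosedMap f) {G : Set X} (hG : IsOpen G) : IsOpen (ker f G) := by
  have : ker f G = (f '' Gᶜ)ᶜ := by
    ext y
    simp only [ker, mem_setOf_eq, mem_compl_iff, mem_image, not_exists, not_and, not_not]
    constructor
    · intro h x hx hxy
      exact hx (h hxy)
    · intro h x hx
      by_contra hxG
      exact h x hxG hx
  rw [this]
  exact (hf _ hG.isClosed_compl).isOpen_compl

/-- A metalindelöf space: every open cover has a point-countable open refinement. -/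
def Metalindelof (X : Type u) [TopologicalSpace X] : Prop :=
  ∀ 𝒰 : Set (Set X), (∀ U ∈ 𝒰, IsOpen U) → ⋃₀ 𝒰 = univ →
    ∃ 𝒱 : Set (Set X), (∀ V ∈ 𝒱, IsOpen V) ∧ ⋃₀ 𝒱 = univ ∧
      (∀ V ∈ 𝒱, ∃ U ∈ 𝒰, V ⊆ U) ∧ ∀ x, {V | V ∈ 𝒱 ∧ x ∈ V}.Countable

/-- every open cover of `Y` indexed by `ι` has a precise point-countable open refinement -/
def RefPC (Y : Type v) [TopologicalSpace Y] (ι : Type w) : Prop :=
  ∀ U : ι → Set Y, (∀ i, IsOpen (U i)) → (⋃ i, U i) = univ →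
    ∃ V : ι → Set Y, (∀ i, IsOpen (V i)) ∧ (∀ i, V i ⊆ U i) ∧ (⋃ i, V i) = univ ∧
      ∀ y, {i | y ∈ V i}.Countable

theorem Metalindelof.refPC {X : Type u} [TopologicalSpace X] (h : Metalindelof X)
    (ι : Type w) : RefPC X ι := by
  intro U hU hcov
  obtain ⟨𝒱, h1, h2, h3, h4⟩ := h (range U) (by rintro _ ⟨i, rfl⟩; exact hU i)
    (by rw [sUnion_range]; exact hcov)
  have h3' : ∀ V : 𝒱, ∃ i, (V : Set X) ⊆ U i := by
    rintro ⟨V, hV⟩
    obtain ⟨_, ⟨i, rfl⟩, hi⟩ := h3 V hV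
    exact ⟨i, hi⟩
  choose g hg using h3'
  refine ⟨fun i => ⋃ V : {V : 𝒱 // g V = i}, (V.1 : Set X), ?_, ?_, ?_, ?_⟩
  · intro i
    exact isOpen_iUnion fun V => h1 _ V.1.2
  · intro i
    refine iUnion_subset fun V => ?_
    have := hg V.1
    rwa [V.2] at this
  · rw [eq_univ_iff_forall] at h2 ⊢
    intro x
    obtain ⟨V, hV, hxV⟩ := h2 x
    refine mem_iUnion.2 ⟨g ⟨V, hV⟩, mem_iUnion.2 ⟨⟨⟨V, hV⟩, rfl⟩, hxV⟩⟩
  · intro x
    have hc : {V : 𝒱 | x ∈ (V : Set X)}.Countable := by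
      have := (h4 x).preimage (f := fun V : 𝒱 => (V : Set X)) Subtype.val_injective
      refine this.mono ?_
      intro V hV
      exact ⟨V.2, hV⟩
    refine (hc.image g).mono ?_
    intro i hi
    obtain ⟨V, hV⟩ := mem_iUnion.1 hi
    exact ⟨V.1, hV, V.2⟩

theorem RefPC.sets {Y : Type v} [TopologicalSpace Y] {𝒰 : Set (Set Y)}
    (h : RefPC Y 𝒰) (ho : ∀ U ∈ 𝒰, IsOpen U) (hc : ⋃₀ 𝒰 = univ) :
    ∃ 𝒱 : Set (Set Y), (∀ V ∈ 𝒱, IsOpen V) ∧ ⋃₀ 𝒱 = univ ∧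
      (∀ V ∈ 𝒱, ∃ U ∈ 𝒰, V ⊆ U) ∧ ∀ x, {V | V ∈ 𝒱 ∧ x ∈ V}.Countable := by
  obtain ⟨V, h1, h2, h3, h4⟩ := h (fun U => (U : Set Y)) (fun U => ho _ U.2)
    (by rw [← sUnion_eq_iUnion]; exact hc)
  refine ⟨range V, ?_, ?_, ?_, ?_⟩
  · rintro _ ⟨i, rfl⟩
    exact h1 i
  · rw [sUnion_range]; exact h3
  · rintro _ ⟨i, rfl⟩
    exact ⟨i, i.2, h2 i⟩
  · intro x
    refine ((h4 x).image V).mono ?_
    rintro _ ⟨⟨i, rfl⟩, hx⟩
    exact ⟨i, hx, rfl⟩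

theorem RefPC.of_injective {Y : Type v} [TopologicalSpace Y] {ι : Type w} {ι' : Type w'}
    (h : RefPC Y ι) (e : ι' → ι) (he : Function.Injective e) : RefPC Y ι' := by
  intro U hU hcov
  obtain ⟨V, h1, h2, h3, h4⟩ := h (fun i => ⋃ j : {j // e j = i}, U j.1)
    (fun i => isOpen_iUnion fun j => hU _) (by
      rw [eq_univ_iff_forall] at hcov ⊢
      intro y
      obtain ⟨j, hj⟩ := mem_iUnion.1 (hcov y)
      exact mem_iUnion.2 ⟨e j, mem_iUnion.2 ⟨⟨j, rfl⟩, hj⟩⟩)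
  refine ⟨fun j => V (e j), fun j => h1 _, ?_, ?_, ?_⟩
  · intro j y hy
    obtain ⟨j', hj'⟩ := mem_iUnion.1 (h2 _ hy)
    have := he j'.2
    rwa [this] at hj'
  · rw [eq_univ_iff_forall] at h3 ⊢
    intro y
    obtain ⟨i, hi⟩ := mem_iUnion.1 (h3 y)
    obtain ⟨j, -⟩ := mem_iUnion.1 (h2 _ hi)
    refine mem_iUnion.2 ⟨j.1, ?_⟩
    rw [j.2]; exact hi
  · intro y
    exact (h4 y).preimage he

theorem RefPC.of_mk_le {Y : Type v} [TopologicalSpace Y] {ι : Type w} {ι' : Type w'}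
    (h : RefPC Y ι) (hle : Cardinal.lift.{w} (Cardinal.mk ι') ≤ Cardinal.lift.{w'} (Cardinal.mk ι)) : RefPC Y ι' := by
  obtain ⟨e⟩ := Cardinal.lift_mk_le'.1 hle
  exact h.of_injective e e.injective

theorem RefPC.of_countable (Y : Type v) [TopologicalSpace Y] (ι : Type w) [Countable ι] :
    RefPC Y ι := by
  intro U hU hcov
  exact ⟨U, hU, fun i => Subset.rfl, hcov, fun y => to_countable _⟩

/-- The part of the fibre over `y` outside the interior of the fibre. If points of `Y` are closed,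
this is the boundary of the fibre. -/
def bd {X : Type u} {Y : Type v} [TopologicalSpace X] (f : X → Y) (y : Y) : Set X :=
  f ⁻¹' {y} \ interior (f ⁻¹' {y})

/-- `V` contains the interior of a fibre as soon as it contains the chosen point of the fibre. -/
def Sat {X : Type u} {Y : Type v} [TopologicalSpace X] (f : X → Y) (p : Y → X) (V : Set X) : Prop :=
  ∀ y, p y ∈ V → interior (f ⁻¹' {y}) ⊆ V

theorem fib_of_mem {X : Type u} {Y : Type v} [TopologicalSpace X] {f : X → Y} {x : X} {y : Y}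
    (h : x ∈ interior (f ⁻¹' {y})) : f x = y := by
  have := interior_subset h
  exact this

theorem exists_sat {X : Type u} {Y : Type v} [TopologicalSpace X] {f : X → Y} {p : Y → X}
    (hp : ∀ y, f (p y) = y) {ι : Type w} (hX : RefPC X ι) (U : ι → Set Y)
    (hU : ∀ i, IsOpen (f ⁻¹' (U i))) (hcov : (⋃ i, U i) = univ) :
    ∃ V : ι → Set X, (∀ i, IsOpen (V i)) ∧ (∀ i, V i ⊆ f ⁻¹' (U i)) ∧ (⋃ i, V i) = univ ∧
      (∀ x, {i | x ∈ V i}.Countable) ∧ ∀ i, Sat f p (V i) := by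
  obtain ⟨V, h1, h2, h3, h4⟩ := hX (fun i => f ⁻¹' (U i)) hU (by
    rw [← preimage_iUnion, hcov, preimage_univ])
  have key : ∀ i y x, x ∈ interior (f ⁻¹' {y}) →
      x ∈ (V i ∪ ⋃ z : {z : Y // p z ∈ V i}, interior (f ⁻¹' {z.1})) → x ∈ V i ∨ p y ∈ V i := by
    intro i y x hx h
    rcases h with h | h
    · exact Or.inl h
    · obtain ⟨⟨z, hz⟩, hxz⟩ := mem_iUnion.1 h
      have e1 : f x = y := fib_of_mem hx
      have e2 : f x = z := fib_of_mem hxz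
      right
      rw [← e1, e2]; exact hz
  refine ⟨fun i => V i ∪ ⋃ z : {z : Y // p z ∈ V i}, interior (f ⁻¹' {z.1}), ?_, ?_, ?_, ?_, ?_⟩
  · exact fun i => (h1 i).union (isOpen_iUnion fun z => isOpen_interior)
  · intro i
    refine union_subset (h2 i) (iUnion_subset ?_)
    rintro ⟨z, hz⟩ x hx
    have e2 : f x = z := fib_of_mem hx
    have := h2 i hz
    rw [mem_preimage, hp] at this
    rw [mem_preimage, e2]; exact this
  · rw [eq_univ_iff_forall] at h3 ⊢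
    intro x
    obtain ⟨i, hi⟩ := mem_iUnion.1 (h3 x)
    exact mem_iUnion.2 ⟨i, Or.inl hi⟩
  · intro x
    refine ((h4 x).union (h4 (p (f x)))).mono ?_
    intro i hi
    rcases hi with h | h
    · exact Or.inl h
    · obtain ⟨⟨z, hz⟩, hxz⟩ := mem_iUnion.1 h
      have e2 : f x = z := fib_of_mem hxz
      right
      change p (f x) ∈ V i
      rw [e2]; exact hz
  · intro i y hy x hx
    rcases hy with h | h
    · exact Or.inr (mem_iUnion.2 ⟨⟨y, h⟩, hx⟩)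
    · obtain ⟨⟨z, hz⟩, hxz⟩ := mem_iUnion.1 h
      have e2 : f (p y) = z := fib_of_mem hxz
      rw [hp] at e2
      subst e2
      exact Or.inr (mem_iUnion.2 ⟨⟨y, hz⟩, hx⟩)

/-- The main step. -/
theorem step {X : Type u} {Y : Type v} [TopologicalSpace X] [TopologicalSpace Y] {f : X → Y}
    (hc : Continuous f) (hcl : IsClosedMap f) {p : Y → X} (hp : ∀ y, f (p y) = y)
    {ι : Type w} [LinearOrder ι] [WellFoundedLT ι] {Λ : Type*} {T : Type*}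
    (𝒮 : T → Set Λ) (h𝒮 : ∀ t, (𝒮 t).Countable)
    (e : ι → ι → Λ) (he : ∀ γ, InjOn (e γ) (Iic γ))
    (hX : RefPC X ι) (hT : RefPC Y T)
    (hcof : ∀ (V : ι → Set X) (y : Y) (β : ι), (∀ γ, IsOpen (V γ)) → (∀ γ, Sat f p (V γ)) →
      (f ⁻¹' {y} ⊆ ⋃ γ ∈ Ici β, V γ) →
      ∃ t, f ⁻¹' {y} ⊆ ⋃ γ ∈ {γ | β ≤ γ ∧ e γ β ∈ 𝒮 t}, V γ) :
    RefPC Y ι := by
  intro U hU hcov
  obtain ⟨V, h1, h2, h3, h4, h5⟩ := exists_sat hp hX U (fun i => (hU i).preimage hc) hcov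
  let O : T → ι → Set Y := fun t β =>
    U β ∩ ker f (⋃ γ ∈ {γ | β ≤ γ ∧ e γ β ∈ 𝒮 t}, V γ)
  have hO : ∀ t β, IsOpen (O t β) := fun t β =>
    (hU β).inter (isOpen_ker hcl (isOpen_biUnion fun γ _ => h1 γ))
  have hOc : ∀ t y, {β | y ∈ O t β}.Countable := by
    intro t y
    have hx : f (p y) = y := hp y
    have : {β | y ∈ O t β} ⊆ ⋃ γ ∈ {γ | p y ∈ V γ}, {β | β ∈ Iic γ ∧ e γ β ∈ 𝒮 t} := by
      intro β hβ
      have := hβ.2 (show p y ∈ f ⁻¹' {y} from hx)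
      obtain ⟨γ, hγ, hxγ⟩ := mem_iUnion₂.1 this
      exact mem_iUnion₂.2 ⟨γ, hxγ, hγ.1, hγ.2⟩
    refine (Countable.biUnion (h4 (p y)) fun γ _ => ?_).mono this
    refine Set.MapsTo.countable_of_injOn (f := e γ) (t := 𝒮 t) ?_ ?_ (h𝒮 t)
    · intro β hβ; exact hβ.2
    · exact (he γ).mono fun β hβ => hβ.1
  obtain ⟨G, g1, g2, g3, g4⟩ := hT (fun t => ⋃ β, O t β) (fun t => isOpen_iUnion (hO t)) (by
    rw [eq_univ_iff_forall]
    intro y
    have hne : {β | y ∈ U β}.Nonempty := by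
      have : y ∈ ⋃ i, U i := by rw [hcov]; trivial
      exact mem_iUnion.1 this
    let β := (wellFounded_lt (α := ι)).min {β | y ∈ U β} hne
    have hβ : y ∈ U β := (wellFounded_lt (α := ι)).min_mem {β | y ∈ U β} hne
    have hβ' : ∀ γ, y ∈ U γ → β ≤ γ := fun γ hγ =>
      not_lt.1 ((wellFounded_lt (α := ι)).not_lt_min {β | y ∈ U β} hγ)
    obtain ⟨t, ht⟩ := hcof V y β h1 h5 (by
      intro x hx
      have : x ∈ ⋃ i, V i := by rw [h3]; trivial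
      obtain ⟨γ, hγ⟩ := mem_iUnion.1 this
      refine mem_iUnion₂.2 ⟨γ, ?_, hγ⟩
      refine hβ' γ ?_
      have := h2 γ hγ
      rw [mem_preimage] at this
      rwa [show f x = y from hx] at this)
    exact mem_iUnion.2 ⟨t, mem_iUnion.2 ⟨β, hβ, ht⟩⟩)
  refine ⟨fun β => ⋃ t, G t ∩ O t β, ?_, ?_, ?_, ?_⟩
  · exact fun β => isOpen_iUnion fun t => (g1 t).inter (hO t β)
  · intro β
    exact iUnion_subset fun t y hy => hy.2.1
  · rw [eq_univ_iff_forall] at g3 ⊢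
    intro y
    obtain ⟨t, ht⟩ := mem_iUnion.1 (g3 y)
    obtain ⟨β, hβ⟩ := mem_iUnion.1 (g2 t ht)
    exact mem_iUnion.2 ⟨β, mem_iUnion.2 ⟨t, ht, hβ⟩⟩
  · intro y
    have : {β | y ∈ ⋃ t, G t ∩ O t β} ⊆ ⋃ t ∈ {t | y ∈ G t}, {β | y ∈ O t β} := by
      intro β hβ
      obtain ⟨t, ht⟩ := mem_iUnion.1 hβ
      exact mem_iUnion₂.2 ⟨t, ht.1, ht.2⟩
    exact (Countable.biUnion (g4 y) fun t _ => hOc t y).mono this

/-- Lindelöf boundary: countably many members of a cover by saturated sets cover the fibre. -/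
theorem exists_countable_cover {X : Type u} {Y : Type v} [TopologicalSpace X] {f : X → Y}
    {p : Y → X} (hp : ∀ y, f (p y) = y) {y : Y} (hL : IsLindelof (bd f y)) {κ : Type w}
    (V : κ → Set X) (hV : ∀ γ, IsOpen (V γ)) (hS : ∀ γ, Sat f p (V γ))
    (hcov : f ⁻¹' {y} ⊆ ⋃ γ, V γ) :
    ∃ r : Set κ, r.Countable ∧ f ⁻¹' {y} ⊆ ⋃ γ ∈ r, V γ := by
  obtain ⟨r, hr, hr'⟩ := hL.elim_countable_subcover V hV (sdiff_subset.trans hcov)
  obtain ⟨γ₀, hγ₀⟩ := mem_iUnion.1 (hcov (show p y ∈ f ⁻¹' {y} from hp y))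
  refine ⟨insert γ₀ r, hr.insert _, fun x hx => ?_⟩
  by_cases hxi : x ∈ interior (f ⁻¹' {y})
  · exact mem_iUnion₂.2 ⟨γ₀, mem_insert _ _, hS γ₀ y hγ₀ hxi⟩
  · obtain ⟨γ, hγ, hxγ⟩ := mem_iUnion₂.1 (hr' ⟨hx, hxi⟩)
    exact mem_iUnion₂.2 ⟨γ, mem_insert_of_mem _ hγ, hxγ⟩

/-- Compact boundary: finitely many members of a cover by saturated sets cover the fibre. -/
theorem exists_finite_cover {X : Type u} {Y : Type v} [TopologicalSpace X] {f : X → Y}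
    {p : Y → X} (hp : ∀ y, f (p y) = y) {y : Y} (hL : IsCompact (bd f y)) {κ : Type w}
    (V : κ → Set X) (hV : ∀ γ, IsOpen (V γ)) (hS : ∀ γ, Sat f p (V γ))
    (hcov : f ⁻¹' {y} ⊆ ⋃ γ, V γ) :
    ∃ r : Finset κ, f ⁻¹' {y} ⊆ ⋃ γ ∈ r, V γ := by
  classical
  obtain ⟨r, hr'⟩ := hL.elim_finite_subcover V hV (sdiff_subset.trans hcov)
  obtain ⟨γ₀, hγ₀⟩ := mem_iUnion.1 (hcov (show p y ∈ f ⁻¹' {y} from hp y))
  refine ⟨insert γ₀ r, fun x hx => ?_⟩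
  by_cases hxi : x ∈ interior (f ⁻¹' {y})
  · exact mem_iUnion₂.2 ⟨γ₀, Finset.mem_insert_self _ _, hS γ₀ y hγ₀ hxi⟩
  · obtain ⟨γ, hγ, hxγ⟩ := mem_iUnion₂.1 (hr' ⟨hx, hxi⟩)
    exact mem_iUnion₂.2 ⟨γ, Finset.mem_insert_of_mem hγ, hxγ⟩

end R594.Img
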