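import Pool.Agent.R594.Img.Basic

open Set Topology

namespace R594.Img

universe u v w w'

/-- A point-countable open cover together with countable sets of labels. -/
structure Sys {X : Type u} {Y : Type v} [TopologicalSpace X] (f : X → Y) (p : Y → X)
    (ι : Type w) where
  J : Type w
  V : J → Set X
  S : J → Set ι
  isOpen : ∀ j, IsOpen (V j)
  cover : (⋃ j, V j) = univ
  pc : ∀ x, {j | x ∈ V j}.Countable
  Sc : ∀ j, (S j).Countable
  sat : ∀ j, Sat f p (V j)

/-- `B` is a refinement of `A` through the labelling `F`. -/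
def IsNext {X : Type u} {Y : Type v} [TopologicalSpace X] {f : X → Y} {p : Y → X} {ι : Type w}
    (A B : Sys f p ι) (F : B.J → Finset A.J) : Prop :=
  (∀ j, B.V j ⊆ f ⁻¹' (ker f (⋃ i ∈ F j, A.V i))) ∧ ∀ j, ∀ i ∈ F j, A.S i ⊆ B.S j

theorem exists_next {X : Type u} {Y : Type v} [TopologicalSpace X] [TopologicalSpace Y]
    {f : X → Y} (hc : Continuous f) (hcl : IsClosedMap f) {p : Y → X} (hp : ∀ y, f (p y) = y)
    (hfin : ∀ y, IsCompact (bd f y))
    {ι : Type w} (hX : ∀ κ : Type w, RefPC X κ) (A : Sys f p ι) :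
    ∃ B : Sys f p ι, ∃ F : B.J → Finset A.J, IsNext A B F := by
  obtain ⟨V, h1, h2, h3, h4, h5⟩ := exists_sat hp (hX (Finset A.J))
    (fun F => ker f (⋃ i ∈ F, A.V i))
    (fun F => (isOpen_ker hcl (isOpen_biUnion fun i _ => A.isOpen i)).preimage hc) (by
      rw [eq_univ_iff_forall]
      intro y
      obtain ⟨F, hF⟩ := exists_finite_cover hp (hfin y) A.V A.isOpen A.sat (by
        rw [A.cover]; exact subset_univ _)
      exact mem_iUnion.2 ⟨F, hF⟩)
  refine ⟨⟨Finset A.J, V, fun F => ⋃ i ∈ F, A.S i, h1, h3, h4, ?_, h5⟩, fun F => F, h2, ?_⟩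
  · intro F
    exact Countable.biUnion (Finset.countable_toSet F) fun i _ => A.Sc i
  · intro F i hi
    exact subset_biUnion_of_mem (u := fun i => A.S i) hi

/-- Closed maps whose fibres have finite boundaries preserve the refinement property. -/
theorem finite_fibres {X : Type u} {Y : Type v} [TopologicalSpace X] [TopologicalSpace Y]
    {f : X → Y} (hc : Continuous f) (hcl : IsClosedMap f) (hs : Function.Surjective f)
    (hfin : ∀ y, (bd f y).Finite) (hX : ∀ κ : Type w, RefPC X κ) (ι : Type w) :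
    RefPC Y ι := by
  classical
  intro U hU hcov
  obtain ⟨p, hp⟩ := hs.hasRightInverse
  obtain ⟨V, h1, h2, h3, h4, h5⟩ := exists_sat hp (hX ι) U (fun i => (hU i).preimage hc) hcov
  let A₀ : Sys f p ι := ⟨ι, V, fun i => {i}, h1, h3, h4, fun i => countable_singleton i, h5⟩
  choose N FN hN using
    fun A : Sys f p ι => exists_next hc hcl hp (fun y => (hfin y).isCompact) hX A
  let sq : ℕ → Sys f p ι := fun n => Nat.rec A₀ (fun _ A => N A) n
  let G : ℕ → ι → Set X := fun n i =>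
    ⋃ k : Iic n, ⋃ j : {j : (sq k).J // i ∈ (sq k).S j}, (sq k).V j.1
  have hGo : ∀ n i, IsOpen (G n i) := fun n i =>
    isOpen_iUnion fun k => isOpen_iUnion fun j => (sq k).isOpen _
  have hGm : ∀ n i, G n i ⊆ G (n + 1) i := by
    intro n i x hx
    obtain ⟨k, hk⟩ := mem_iUnion.1 hx
    exact mem_iUnion.2 ⟨⟨k.1, (k.2 : k.1 ≤ n).trans (Nat.le_succ n)⟩, hk⟩
  have hGs : ∀ n i, Sat f p (G n i) := by
    intro n i y hy x hx
    obtain ⟨k, hk⟩ := mem_iUnion.1 hy
    obtain ⟨j, hj⟩ := mem_iUnion.1 hk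
    exact mem_iUnion.2 ⟨k, mem_iUnion.2 ⟨j, (sq k).sat j.1 y hj hx⟩⟩
  have key : ∀ n : ℕ, ∀ y, ∀ F : Finset (sq n).J, (f ⁻¹' {y} ⊆ ⋃ j ∈ F, (sq n).V j) →
      ∀ R : Finset X, (R : Set X) ⊆ f ⁻¹' {y} → R.Nonempty → R.card ≤ n + 1 →
      ∃ i, y ∈ U i ∧ (∃ j ∈ F, i ∈ (sq n).S j) ∧ (R : Set X) ⊆ G n i := by
    intro n
    induction n with
    | zero =>
      intro y F hF R hR hRne hRc
      obtain ⟨x, hx⟩ := hRne
      have hR1 : ∀ z ∈ R, z = x := fun z hz => (Finset.card_le_one.1 hRc) z hz x hx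
      obtain ⟨j, hj, hxj⟩ := mem_iUnion₂.1 (hF (hR hx))
      refine ⟨j, ?_, ⟨j, hj, rfl⟩, ?_⟩
      · have := h2 j hxj
        rw [mem_preimage] at this
        rwa [show f x = y from hR hx] at this
      · intro z hz
        rw [hR1 z hz]
        exact mem_iUnion.2 ⟨⟨0, Nat.le_refl 0⟩, mem_iUnion.2 ⟨⟨j, rfl⟩, hxj⟩⟩
    | succ n ih =>
      intro y F hF R hR hRne hRc
      obtain ⟨x, hx⟩ := hRne
      obtain ⟨j, hj, hxj⟩ := mem_iUnion₂.1 (hF (hR hx))
      have hnext := hN (sq n)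
      have hcover := hnext.1 j hxj
      rw [mem_preimage, show f x = y from hR hx, mem_ker] at hcover
      by_cases hR' : (R.erase x).Nonempty
      · obtain ⟨i, hi, ⟨j', hj', hij'⟩, hiR⟩ := ih y (FN (sq n) j) hcover (R.erase x)
          (fun z hz => hR (Finset.mem_of_mem_erase hz)) hR' (by
            rw [Finset.card_erase_of_mem hx]; omega)
        have hij : i ∈ (sq (n + 1)).S j := hnext.2 j j' hj' hij'
        refine ⟨i, hi, ⟨j, hj, hij⟩, ?_⟩
        intro z hz
        by_cases hzx : z = x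
        · rw [hzx]
          exact mem_iUnion.2 ⟨⟨n + 1, Nat.le_refl _⟩, mem_iUnion.2 ⟨⟨j, hij⟩, hxj⟩⟩
        · exact hGm n i (hiR (Finset.mem_erase.2 ⟨hzx, hz⟩))
      · obtain ⟨i, hi, ⟨j', hj', hij'⟩, hiR⟩ := ih y (FN (sq n) j) hcover {x}
          (fun z hz => by
            have : z = x := by simpa using hz
            rw [this]; exact hR hx) (Finset.singleton_nonempty x) (by simp)
        have hij : i ∈ (sq (n + 1)).S j := hnext.2 j j' hj' hij'
        refine ⟨i, hi, ⟨j, hj, hij⟩, ?_⟩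
        intro z hz
        have hzx : z = x := by
          by_contra hne
          exact hR' ⟨z, Finset.mem_erase.2 ⟨hne, hz⟩⟩
        exact hGm n i (hiR (by simp [hzx]))
  refine ⟨fun i => ⋃ n, U i ∩ ker f (G n i), ?_, ?_, ?_, ?_⟩
  · exact fun i => isOpen_iUnion fun n => (hU i).inter (isOpen_ker hcl (hGo n i))
  · exact fun i => iUnion_subset fun n => inter_subset_left
  · rw [eq_univ_iff_forall]
    intro y
    let R := insert (p y) (hfin y).toFinset
    let n := R.card
    obtain ⟨F, hF⟩ := exists_finite_cover hp (hfin y).isCompact (sq n).V (sq n).isOpen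
      (sq n).sat (by rw [(sq n).cover]; exact subset_univ _)
    obtain ⟨i, hi, -, hR⟩ := key n y F hF R
      (by
        intro z hz
        rcases Finset.mem_insert.1 hz with h | h
        · rw [h]; exact hp y
        · rw [Finite.mem_toFinset] at h
          exact h.1) ⟨p y, Finset.mem_insert_self _ _⟩ (Nat.le_succ _)
    refine mem_iUnion.2 ⟨i, mem_iUnion.2 ⟨n, hi, ?_⟩⟩
    intro z hz
    by_cases hzi : z ∈ interior (f ⁻¹' {y})
    · exact hGs n i y (hR (Finset.mem_insert_self _ _)) hzi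
    · refine hR (Finset.mem_insert_of_mem ?_)
      rw [Finite.mem_toFinset]
      exact ⟨hz, hzi⟩
  · intro y
    have hx : f (p y) = y := hp y
    have : {i | y ∈ ⋃ n, U i ∩ ker f (G n i)} ⊆
        ⋃ n : ℕ, ⋃ j ∈ {j | p y ∈ (sq n).V j}, (sq n).S j := by
      intro i hi
      obtain ⟨n, -, hn⟩ := mem_iUnion.1 hi
      obtain ⟨k, hk⟩ := mem_iUnion.1 (hn (show p y ∈ f ⁻¹' {y} from hx))
      obtain ⟨j, hj⟩ := mem_iUnion.1 hk
      exact mem_iUnion.2 ⟨k.1, mem_iUnion₂.2 ⟨j.1, hj, j.2⟩⟩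
    refine (countable_iUnion fun n => ?_).mono this
    exact Countable.biUnion ((sq n).pc (p y)) fun j _ => (sq n).Sc j

end R594.Img
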