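import Pool.Agent.R594.Img.Succ

open Set Topology

namespace R594.Img

universe u v w w'

/-- Every countable open cover has a point-finite open refinement. -/
def CountablyMetacompact (X : Type u) [TopologicalSpace X] : Prop :=
  ∀ 𝒰 : Set (Set X), 𝒰.Countable → (∀ U ∈ 𝒰, IsOpen U) → ⋃₀ 𝒰 = univ →
    ∃ 𝒱 : Set (Set X), (∀ V ∈ 𝒱, IsOpen V) ∧ ⋃₀ 𝒱 = univ ∧
      (∀ V ∈ 𝒱, ∃ U ∈ 𝒰, V ⊆ U) ∧ ∀ x, {V | V ∈ 𝒱 ∧ x ∈ V}.Finite

/-- An uncountable regular limit cardinal. -/
def WeaklyInaccessible (c : Cardinal.{w}) : Prop :=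
  Cardinal.aleph0 < c ∧ c.IsRegular ∧ Order.IsSuccLimit c

theorem CountablyMetacompact.indexed {X : Type u} [TopologicalSpace X]
    (h : CountablyMetacompact X) {I : Type w} [Countable I] (U : I → Set X)
    (hU : ∀ i, IsOpen (U i)) (hcov : (⋃ i, U i) = univ) :
    ∃ V : I → Set X, (∀ i, IsOpen (V i)) ∧ (∀ i, V i ⊆ U i) ∧ (⋃ i, V i) = univ ∧
      ∀ x, {i | x ∈ V i}.Finite := by
  obtain ⟨𝒱, h1, h2, h3, h4⟩ := h (range U) (countable_range U)
    (by rintro _ ⟨i, rfl⟩; exact hU i) (by rw [sUnion_range]; exact hcov)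
  have h3' : ∀ V : 𝒱, ∃ i, (V : Set X) ⊆ U i := by
    rintro ⟨V, hV⟩
    obtain ⟨_, ⟨i, rfl⟩, hi⟩ := h3 V hV
    exact ⟨i, hi⟩
  choose g hg using h3'
  refine ⟨fun i => ⋃ V : {V : 𝒱 // g V = i}, (V.1 : Set X), ?_, ?_, ?_, ?_⟩
  · intro i
    exact isOpen_iUnion fun V => h1 _ V.1.2
  · intro i
    refine iUnion_subset fun V => ?_
    have := hg V.1
    rwa [V.2] at this
  · rw [eq_univ_iff_forall] at h2 ⊢
    intro x
    obtain ⟨V, hV, hxV⟩ := h2 x
    refine mem_iUnion.2 ⟨g ⟨V, hV⟩, mem_iUnion.2 ⟨⟨⟨V, hV⟩, rfl⟩, hxV⟩⟩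
  · intro x
    have hc : {V : 𝒱 | x ∈ (V : Set X)}.Finite := by
      have := (h4 x).preimage (f := fun V : 𝒱 => (V : Set X)) Subtype.val_injective.injOn
      refine this.subset ?_
      intro V hV
      exact ⟨V.2, hV⟩
    refine (hc.image g).subset ?_
    intro i hi
    obtain ⟨V, hV⟩ := mem_iUnion.1 hi
    exact ⟨V.1, hV, V.2⟩

theorem limit_step {Y : Type v} [TopologicalSpace Y] {ι : Type w} [LinearOrder ι] {I : Type w'}
    (g : I → ι) (U : ι → Set Y) (hU : ∀ i, IsOpen (U i)) (D : I → Set Y)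
    (hD : ∀ i, IsClosed (D i)) (hDU : ∀ i, D i ⊆ ⋃ β ∈ Iic (g i), U β)
    (hDc : (⋃ i, D i) = univ) (hI : RefPC Y I)
    (hseg : ∀ i, RefPC Y (Option (Iic (g i)))) :
    ∃ V : ι → Set Y, (∀ i, IsOpen (V i)) ∧ (∀ i, V i ⊆ U i) ∧ (⋃ i, V i) = univ ∧
      ∀ y, {i | y ∈ V i}.Countable := by
  classical
  have h1 : ∀ i, ∃ G : Option (Iic (g i)) → Set Y, (∀ o, IsOpen (G o)) ∧
      (∀ β, G (some β) ⊆ U β) ∧ D i ⊆ (⋃ β, G (some β)) ∧ ∀ y, {o | y ∈ G o}.Countable := by
    intro i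
    obtain ⟨G, g1, g2, g3, g4⟩ := hseg i
      (fun o => match o with
        | none => (D i)ᶜ
        | some β => U β)
      (by
        rintro (_ | β)
        · exact (hD i).isOpen_compl
        · exact hU β)
      (by
        rw [eq_univ_iff_forall]
        intro y
        by_cases hy : y ∈ D i
        · obtain ⟨β, hβ, hy'⟩ := mem_iUnion₂.1 (hDU i hy)
          exact mem_iUnion.2 ⟨some ⟨β, hβ⟩, hy'⟩
        · exact mem_iUnion.2 ⟨none, hy⟩)
    refine ⟨G, g1, fun β => g2 (some β), ?_, g4⟩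
    intro y hy
    have : y ∈ ⋃ o, G o := by rw [g3]; trivial
    obtain ⟨o, ho⟩ := mem_iUnion.1 this
    rcases o with _ | β
    · exact absurd hy (g2 none ho)
    · exact mem_iUnion.2 ⟨β, ho⟩
  choose G g1 g2 g3 g4 using h1
  obtain ⟨P, p1, p2, p3, p4⟩ := hI (fun i => ⋃ β, G i (some β))
    (fun i => isOpen_iUnion fun β => g1 i _) (by
      rw [eq_univ_iff_forall] at hDc ⊢
      intro y
      obtain ⟨i, hi⟩ := mem_iUnion.1 (hDc y)
      exact mem_iUnion.2 ⟨i, g3 i hi⟩)
  refine ⟨fun β => ⋃ i, ⋃ h : β ∈ Iic (g i), P i ∩ G i (some ⟨β, h⟩), ?_, ?_, ?_, ?_⟩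
  · exact fun β => isOpen_iUnion fun i => isOpen_iUnion fun h => (p1 i).inter (g1 i _)
  · exact fun β => iUnion_subset fun i => iUnion_subset fun h y hy => g2 i _ hy.2
  · rw [eq_univ_iff_forall] at p3 ⊢
    intro y
    obtain ⟨i, hi⟩ := mem_iUnion.1 (p3 y)
    obtain ⟨β, hβ⟩ := mem_iUnion.1 (p2 i hi)
    exact mem_iUnion.2 ⟨β, mem_iUnion.2 ⟨i, mem_iUnion.2 ⟨β.2, hi, hβ⟩⟩⟩
  · intro y
    have : {β | y ∈ ⋃ i, ⋃ h : β ∈ Iic (g i), P i ∩ G i (some ⟨β, h⟩)} ⊆
        ⋃ i ∈ {i | y ∈ P i}, (fun β : Iic (g i) => (β : ι)) '' {β | y ∈ G i (some β)} := by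
      intro β hβ
      obtain ⟨i, hi⟩ := mem_iUnion.1 hβ
      obtain ⟨h, hh⟩ := mem_iUnion.1 hi
      exact mem_iUnion₂.2 ⟨i, hh.1, ⟨β, h⟩, hh.2, rfl⟩
    refine (Countable.biUnion (p4 y) fun i _ => Countable.image ?_ _).mono this
    exact (g4 i y).preimage (Option.some_injective _)

/-- Images of countably metacompact metalindelöf spaces under closed maps whose fibres have compact
boundaries (such as perfect maps). -/
theorem perfect_cmc {X : Type u} {Y : Type v} [TopologicalSpace X] [TopologicalSpace Y]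
    {f : X → Y} (hc : Continuous f) (hcl : IsClosedMap f) (hs : Function.Surjective f)
    (hK : ∀ y, IsCompact (bd f y)) (hX : Metalindelof X) (hcm : CountablyMetacompact X) :
    ∀ c : Cardinal.{w}, (∀ μ ≤ c, ¬ WeaklyInaccessible μ) → ∀ ι : Type w,
      Cardinal.mk ι = c → RefPC Y ι := by
  intro c
  induction c using Cardinal.lt_wf.induction with
  | h c ih =>
  intro hwi ι hι
  by_cases hc0 : c ≤ Cardinal.aleph0
  · have : Countable ι := by rwa [← Cardinal.mk_le_aleph0_iff, hι]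
    exact RefPC.of_countable _ _
  rw [not_le] at hc0
  -- it suffices to treat the initial ordinal
  suffices hmain : RefPC Y c.ord.ToType by
    exact hmain.of_mk_le (by simp [hι])
  by_cases hlim : Order.IsSuccPrelimit c
  · -- limit cardinals
    have hsl : Order.IsSuccLimit c := by
      refine ⟨?_, hlim⟩
      intro hmin
      have : c = 0 := by
        have := hmin (b := 0) (zero_le)
        exact le_antisymm this zero_le
      rw [this] at hc0
      exact absurd hc0 (not_lt.2 zero_le)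
    have hnr : ¬ c.IsRegular := fun h => hwi c le_rfl ⟨hc0, h, hsl⟩
    have hcof : Order.cof c.ord.ToType < c := by
      rw [Ordinal.cof_toType]
      refine lt_of_le_of_ne (Ordinal.cof_ord_le c) ?_
      intro h
      exact hnr ⟨hc0.le, h.ge⟩
    obtain ⟨s, hs1, hs2⟩ := Order.exists_cof_eq c.ord.ToType
    intro U hU hcov
    have hsI : RefPC Y s := ih (Cardinal.mk s) (by rw [hs2]; exact hcof)
      (fun μ hμ => hwi μ (hμ.trans (by rw [hs2]; exact hcof.le))) s rfl
    have hseg : ∀ i : s, RefPC Y (Option (Iic (i : c.ord.ToType))) := by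
      intro i
      have hlt : Cardinal.mk (Option (Iic (i : c.ord.ToType))) < c := by
        rw [Cardinal.mk_option]
        have h1 : Cardinal.mk (Iio (i : c.ord.ToType)) < c := Cardinal.mk_Iio_toType_ord_lt _
        have h2 : (Iic (i : c.ord.ToType)) = insert (i : c.ord.ToType) (Iio (i : c.ord.ToType)) := by
          ext x; simp [le_iff_eq_or_lt]
        have h3 : Cardinal.mk (Iic (i : c.ord.ToType)) ≤ Cardinal.mk (Iio (i : c.ord.ToType)) + 1 := by
          rw [h2]; exact Cardinal.mk_insert_le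
        have h4 : (1 : Cardinal) < c := Cardinal.one_lt_aleph0.trans hc0
        refine Cardinal.add_lt_of_lt hc0.le (h3.trans_lt ?_) h4
        exact Cardinal.add_lt_of_lt hc0.le h1 h4
      exact ih _ hlt (fun μ hμ => hwi μ (hμ.trans hlt.le)) _ rfl
    -- closed sets
    suffices hDex : ∃ D : s → Set Y, (∀ i, IsClosed (D i)) ∧
        (∀ i, D i ⊆ ⋃ β ∈ Iic (i : c.ord.ToType), U β) ∧ (⋃ i, D i) = univ by
      obtain ⟨D, d1, d2, d3⟩ := hDex
      exact limit_step (fun i : s => (i : c.ord.ToType)) U hU D d1 d2 d3 hsI hseg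
    by_cases hsc : Cardinal.mk s ≤ Cardinal.aleph0
    · -- countable cofinality
      have hsct : Countable s := by rwa [← Cardinal.mk_le_aleph0_iff]
      obtain ⟨P, p1, p2, p3, p4⟩ := hcm.indexed
        (fun i : s => f ⁻¹' (⋃ β ∈ Iic (i : c.ord.ToType), U β))
        (fun i => (isOpen_biUnion fun β _ => hU β).preimage hc) (by
          rw [eq_univ_iff_forall] at hcov ⊢
          intro x
          obtain ⟨β, hβ⟩ := mem_iUnion.1 (hcov (f x))
          obtain ⟨i, hi, hβi⟩ := hs1 β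
          exact mem_iUnion.2 ⟨⟨i, hi⟩, mem_iUnion₂.2 ⟨β, hβi, hβ⟩⟩)
      refine ⟨fun i => f '' (⋃ j : {j : s // ¬ (j : c.ord.ToType) ≤ i}, P j.1)ᶜ, ?_, ?_, ?_⟩
      · intro i
        exact hcl _ (isOpen_iUnion fun j => p1 _).isClosed_compl
      · rintro i _ ⟨x, hx, rfl⟩
        have : x ∈ ⋃ j, P j := by rw [p3]; trivial
        obtain ⟨j, hj⟩ := mem_iUnion.1 this
        have hji : (j : c.ord.ToType) ≤ i := by
          by_contra hcon
          exact hx (mem_iUnion.2 ⟨⟨j, hcon⟩, hj⟩)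
        have := p2 j hj
        obtain ⟨β, hβ, hxβ⟩ := mem_iUnion₂.1 (show f x ∈ _ from this)
        exact mem_iUnion₂.2 ⟨β, le_trans hβ hji, hxβ⟩
      · rw [eq_univ_iff_forall]
        intro y
        obtain ⟨x, rfl⟩ := hs y
        have : x ∈ ⋃ j, P j := by rw [p3]; trivial
        obtain ⟨j, hj⟩ := mem_iUnion.1 this
        obtain ⟨i, hi, hmax⟩ := (p4 x).exists_maximalFor (fun j : s => (j : c.ord.ToType)) _ ⟨j, hj⟩
        refine mem_iUnion.2 ⟨i, x, ?_, rfl⟩
        intro hx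
        obtain ⟨⟨j, hji⟩, hj⟩ := mem_iUnion.1 hx
        rcases le_total (j : c.ord.ToType) (i : c.ord.ToType) with h | h
        · exact hji h
        · exact hji (hmax hj h)
    · -- uncountable cofinality
      rw [not_le] at hsc
      obtain ⟨V, h1, h2, h3, h4⟩ := hX.refPC c.ord.ToType (fun i => f ⁻¹' (U i))
        (fun i => (hU i).preimage hc) (by rw [← preimage_iUnion, hcov, preimage_univ])
      refine ⟨fun i => f '' (⋃ γ : {γ : c.ord.ToType // ¬ γ ≤ i}, V γ.1)ᶜ, ?_, ?_, ?_⟩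
      · intro i
        exact hcl _ (isOpen_iUnion fun j => h1 _).isClosed_compl
      · rintro i _ ⟨x, hx, rfl⟩
        have : x ∈ ⋃ j, V j := by rw [h3]; trivial
        obtain ⟨j, hj⟩ := mem_iUnion.1 this
        have hji : j ≤ i := by
          by_contra hcon
          exact hx (mem_iUnion.2 ⟨⟨j, hcon⟩, hj⟩)
        exact mem_iUnion₂.2 ⟨j, hji, h2 j hj⟩
      · rw [eq_univ_iff_forall]
        intro y
        obtain ⟨x, rfl⟩ := hs y
        have hb : ∃ i ∈ s, ∀ γ, x ∈ V γ → γ ≤ i := by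
          by_contra hcon
          push Not at hcon
          have hcf : IsCofinal {γ | x ∈ V γ} := by
            intro t
            obtain ⟨i, hi, hti⟩ := hs1 t
            obtain ⟨γ, hγ, hiγ⟩ := hcon i hi
            exact ⟨γ, hγ, hti.trans hiγ.le⟩
          have := (Order.cof_le hcf).trans (Cardinal.le_aleph0_iff_set_countable.2 (h4 x))
          rw [← hs2] at this
          exact absurd hsc (not_lt.2 this)
        obtain ⟨i, hi, hγ⟩ := hb
        refine mem_iUnion.2 ⟨⟨i, hi⟩, x, ?_, rfl⟩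
        intro hx
        obtain ⟨⟨γ, hγi⟩, hxγ⟩ := mem_iUnion.1 hx
        exact hγi (hγ γ hxγ)
  · -- successor cardinals
    obtain ⟨b, hb, hbc⟩ := Order.not_isSuccPrelimit_iff_succ_eq.1 hlim
    have hblt : b < c := by rw [← hbc]; exact Order.lt_succ b
    have hb0 : Cardinal.aleph0 ≤ b := by
      rw [← hbc] at hc0
      exact Order.lt_succ_iff.1 hc0
    have hinf : Infinite b.ord.ToType := by
      rw [Cardinal.infinite_iff, Cardinal.mk_ord_toType]; exact hb0
    have hmkF : Cardinal.mk (Finset b.ord.ToType) = b := by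
      rw [Cardinal.mk_finset_of_infinite, Cardinal.mk_ord_toType]
    have hT : RefPC Y (Finset b.ord.ToType) :=
      ih b hblt (fun μ hμ => hwi μ (hμ.trans hblt.le)) _ hmkF
    have henum : ∃ e : c.ord.ToType → c.ord.ToType → b.ord.ToType,
        ∀ γ, InjOn (e γ) (Iic γ) := by
      apply exists_enum
      intro γ
      have h1 : Cardinal.mk (Iio γ) < c := Cardinal.mk_Iio_toType_ord_lt γ
      have h2 : Cardinal.mk (Iio γ) ≤ b := Order.lt_succ_iff.1 (h1.trans_le hbc.ge)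
      have h3 : Cardinal.mk (Iic γ) ≤ Cardinal.mk b.ord.ToType := by
        rw [Cardinal.mk_ord_toType]
        have : (Iic γ) = insert γ (Iio γ) := by
          ext x; simp [le_iff_eq_or_lt]
        rw [this]
        refine (Cardinal.mk_insert_le).trans ?_
        exact Cardinal.add_le_of_le hb0 h2 (Cardinal.one_le_aleph0.trans hb0)
      obtain ⟨g⟩ := Cardinal.le_def _ _ |>.1 h3
      exact ⟨g, g.injective⟩
    obtain ⟨e, he⟩ := henum
    classical
    obtain ⟨p, hp⟩ := hs.hasRightInverse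
    refine step hc hcl hp (fun t : Finset b.ord.ToType => (t : Set b.ord.ToType))
      (fun t => Finset.countable_toSet t) e he (hX.refPC _) hT ?_
    intro V y β hV hVs hy
    obtain ⟨r, hr⟩ := exists_finite_cover hp (hK y)
      (fun γ : Ici β => V γ) (fun γ => hV _) (fun γ => hVs _) (by rwa [biUnion_eq_iUnion] at hy)
    refine ⟨r.image (fun γ : Ici β => e γ β), fun x hx => ?_⟩
    obtain ⟨γ, hγ, hxγ⟩ := mem_iUnion₂.1 (hr hx)
    refine mem_iUnion₂.2 ⟨γ, ⟨γ.2, ?_⟩, hxγ⟩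
    simp only [Finset.coe_image]
    exact ⟨γ, hγ, rfl⟩

end R594.Img
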