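import Pool.Agent.R594.Img.Basic

open Set Topology

namespace R594.Img

universe u v w w'

/-- A cofinal family, indexed by `T`, of countable subsets of `T`. -/
def Cof (T : Type w) : Prop :=
  ∃ 𝒮 : T → Set T, (∀ t, (𝒮 t).Countable) ∧ ∀ s : Set T, s.Countable → ∃ t, s ⊆ 𝒮 t

theorem Cof.of_countable (T : Type w) [Countable T] [Nonempty T] : Cof T :=
  ⟨fun _ => univ, fun _ => to_countable _, fun s _ => ⟨Classical.arbitrary T, subset_univ _⟩⟩

/-- enumerations of the initial segments -/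
theorem exists_enum {ι : Type w} [LinearOrder ι] {Λ : Type w'} [Nonempty Λ]
    (h : ∀ γ : ι, ∃ g : Iic γ → Λ, Function.Injective g) :
    ∃ e : ι → ι → Λ, ∀ γ, InjOn (e γ) (Iic γ) := by
  classical
  choose g hg using h
  refine ⟨fun γ β => if hβ : β ∈ Iic γ then g γ ⟨β, hβ⟩ else Classical.arbitrary Λ, ?_⟩
  intro γ β hβ β' hβ' h
  simp only [hβ, hβ', dif_pos] at h
  exact congrArg Subtype.val (hg γ h)

/-- The type of order type the initial ordinal of `ℵ_ n` -/
abbrev TT (n : ℕ) : Type w := (Cardinal.ord (Cardinal.aleph.{w} n)).ToType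

theorem mk_TT (n : ℕ) : Cardinal.mk (TT.{w} n) = Cardinal.aleph n := by
  simp [TT]

instance (n : ℕ) : Infinite (TT.{w} n) := by
  rw [Cardinal.infinite_iff, mk_TT]
  exact Cardinal.aleph0_le_aleph _

theorem enum_TT (n : ℕ) : ∃ e : TT.{w} (n + 1) → TT.{w} (n + 1) → TT.{w} n,
    ∀ γ, InjOn (e γ) (Iic γ) := by
  apply exists_enum
  intro γ
  have h1 : Cardinal.mk (Iio γ) < Cardinal.aleph ((n + 1 : ℕ) : Ordinal) := by
    exact Cardinal.mk_Iio_toType_ord_lt γ
  have h2 : Cardinal.mk (Iio γ) ≤ Cardinal.aleph (n : Ordinal) := by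
    have h0 : Cardinal.aleph ((n + 1 : ℕ) : Ordinal) = Order.succ (Cardinal.aleph (n : Ordinal)) := by
      rw [Nat.cast_succ, Cardinal.aleph_add_one]
    exact Order.lt_succ_iff.1 (h1.trans_le h0.le)
  have h3 : Cardinal.mk (Iic γ) ≤ Cardinal.mk (TT.{w} n) := by
    rw [mk_TT]
    have : (Iic γ) = insert γ (Iio γ) := by
      ext x; simp [le_iff_eq_or_lt]
    rw [this]
    refine (Cardinal.mk_insert_le).trans ?_
    refine Cardinal.add_le_of_le (Cardinal.aleph0_le_aleph _) h2 ?_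
    exact Cardinal.one_le_aleph0.trans (Cardinal.aleph0_le_aleph _)
  obtain ⟨g⟩ := Cardinal.le_def _ _ |>.1 h3
  exact ⟨g, g.injective⟩

theorem cof_TT : ∀ n : ℕ, Cof (TT.{w} n)
  | 0 => by
    have : Countable (TT.{w} 0) := by
      rw [← Cardinal.mk_le_aleph0_iff, mk_TT]
      simp
    exact Cof.of_countable _
  | n + 1 => by
    obtain ⟨𝒮, h1, h2⟩ := cof_TT n
    obtain ⟨e, he⟩ := enum_TT.{w} n
    -- a bijection between the index set and the product
    have hprod : Cardinal.mk (TT.{w} (n+1) × TT.{w} n) = Cardinal.mk (TT.{w} (n+1)) := by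
      rw [Cardinal.mk_prod, mk_TT, mk_TT, Cardinal.lift_id, Cardinal.lift_id]
      refine Cardinal.mul_eq_left (Cardinal.aleph0_le_aleph _) ?_ ?_
      · exact Cardinal.aleph_le_aleph.2 (by exact_mod_cast Nat.le_succ n)
      · exact (Cardinal.aleph_pos _).ne'
    obtain ⟨E⟩ := Cardinal.eq.1 hprod.symm
    refine ⟨fun t => {β | β ∈ Iic (E t).1 ∧ e (E t).1 β ∈ 𝒮 (E t).2}, ?_, ?_⟩
    · intro t
      refine Set.MapsTo.countable_of_injOn (f := e (E t).1) (t := 𝒮 (E t).2) ?_ ?_ (h1 _)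
      · intro β hβ; exact hβ.2
      · exact (he _).mono fun β hβ => hβ.1
    · intro s hs
      -- `s` is bounded
      have hb : ∃ γ, s ⊆ Iic γ := by
        by_contra hcon
        push Not at hcon
        have hcon' : ∀ t, ∃ β ∈ s, t ≤ β := by
          intro t
          obtain ⟨β, hβ, hβt⟩ := not_subset.1 (hcon t)
          exact ⟨β, hβ, (not_le.1 hβt).le⟩
        choose b hb hb' using hcon'
        have hinj : Function.Injective (fun t => ((⟨b t, hb t⟩ : s), e (b t) t)) := by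
          intro t t' h
          have h1 : b t = b t' := congrArg (fun p => (p.1 : TT.{w} (n+1))) h
          have h2 : e (b t) t = e (b t') t' := congrArg Prod.snd h
          rw [← h1] at h2
          exact he (b t) (hb' t) (by rw [h1]; exact hb' t') h2
        have hle := Cardinal.mk_le_of_injective hinj
        rw [Cardinal.mk_prod, mk_TT, mk_TT, Cardinal.lift_id, Cardinal.lift_id] at hle
        have h5 : Cardinal.mk s * Cardinal.aleph (n : Ordinal) ≤ Cardinal.aleph (n : Ordinal) := by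
          refine (mul_le_mul_left (Cardinal.le_aleph0_iff_set_countable.2 hs) _).trans ?_
          rw [Cardinal.aleph0_mul_eq (Cardinal.aleph0_le_aleph _)]
        have h6 := hle.trans h5
        rw [Cardinal.aleph_le_aleph] at h6
        have : n + 1 ≤ n := by exact_mod_cast h6
        omega
      obtain ⟨γ, hγ⟩ := hb
      obtain ⟨t, ht⟩ := h2 (e γ '' s) (hs.image _)
      refine ⟨E.symm (γ, t), ?_⟩
      intro β hβ
      simp only [Equiv.apply_symm_apply, mem_setOf_eq]
      exact ⟨hγ hβ, ht (mem_image_of_mem _ hβ)⟩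

/-- Closed maps for which the fibres have Lindelöf boundaries: open covers indexed by `TT n`. -/
theorem refPC_TT {X : Type u} {Y : Type v} [TopologicalSpace X] [TopologicalSpace Y] {f : X → Y}
    (hc : Continuous f) (hcl : IsClosedMap f) (hs : Function.Surjective f)
    (hL : ∀ y, IsLindelof (bd f y)) (hX : Metalindelof X) :
    ∀ n : ℕ, RefPC Y (TT.{w} n)
  | 0 => by
    have : Countable (TT.{w} 0) := by
      rw [← Cardinal.mk_le_aleph0_iff, mk_TT]
      simp
    exact RefPC.of_countable _ _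
  | n + 1 => by
    obtain ⟨e, he⟩ := enum_TT.{w} n
    obtain ⟨𝒮, h1, h2⟩ := cof_TT.{w} n
    obtain ⟨p, hp⟩ := hs.hasRightInverse
    refine step hc hcl hp 𝒮 h1 e he (hX.refPC _) (refPC_TT hc hcl hs hL hX n) ?_
    intro V y β hV hVs hy
    obtain ⟨r, hr, hr'⟩ := exists_countable_cover hp (hL y)
      (fun γ : Ici β => V γ) (fun γ => hV _) (fun γ => hVs _) (by rwa [biUnion_eq_iUnion] at hy)
    obtain ⟨t, ht⟩ := h2 ((fun γ : Ici β => e γ β) '' r) (hr.image _)
    refine ⟨t, fun x hx => ?_⟩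
    obtain ⟨γ, hγ, hxγ⟩ := mem_iUnion₂.1 (hr' hx)
    exact mem_iUnion₂.2 ⟨γ, ⟨γ.2, ht ⟨γ, hγ, rfl⟩⟩, hxγ⟩

theorem exists_TT {c : Cardinal.{w}} (h : c < Cardinal.aleph Ordinal.omega0) :
    ∃ n : ℕ, c ≤ Cardinal.mk (TT.{w} n) := by
  by_contra hcon
  push Not at hcon
  refine absurd h (not_lt.2 ?_)
  rw [Cardinal.aleph_limit Ordinal.isSuccLimit_omega0]
  refine ciSup_le' ?_
  rintro ⟨a, ha⟩
  obtain ⟨n, rfl⟩ := Ordinal.lt_omega0.1 ha
  have := hcon n
  rw [mk_TT] at this
  exact this.le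

theorem closed_lindelof_bd {X : Type u} {Y : Type v} [TopologicalSpace X]
    [TopologicalSpace Y] {f : X → Y}
    (hc : Continuous f) (hcl : IsClosedMap f) (hs : Function.Surjective f)
    (hL : ∀ y, IsLindelof (bd f y)) (hX : Metalindelof X) (ι : Type w)
    (hι : Cardinal.mk ι < Cardinal.aleph Ordinal.omega0) : RefPC Y ι := by
  obtain ⟨n, hn⟩ := exists_TT hι
  exact (refPC_TT.{u, v, w} hc hcl hs hL hX n).of_mk_le (by simpa using hn)

/-- Closed maps with arbitrary fibres: open covers of size at most `ℵ₁`. -/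
theorem closed_aleph_one {X : Type u} {Y : Type v} [TopologicalSpace X]
    [TopologicalSpace Y] {f : X → Y}
    (hc : Continuous f) (hcl : IsClosedMap f) (hs : Function.Surjective f)
    (hX : Metalindelof X) (ι : Type w)
    (hι : Cardinal.mk ι ≤ Cardinal.aleph 1) : RefPC Y ι := by
  have h1 : RefPC Y (TT.{w} 1) := by
    obtain ⟨e, he⟩ := enum_TT.{w} 0
    have hct : Countable (TT.{w} 0) := by
      rw [← Cardinal.mk_le_aleph0_iff, mk_TT]
      simp
    obtain ⟨p, hp⟩ := hs.hasRightInverse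
    refine step (Λ := TT.{w} 0) (T := Unit) hc hcl hp (fun _ => univ)
      (fun _ => to_countable _) e he (hX.refPC _) (RefPC.of_countable _ _) ?_
    intro V y β hV _ hy
    refine ⟨(), fun x hx => ?_⟩
    obtain ⟨γ, hγ, hxγ⟩ := mem_iUnion₂.1 (hy hx)
    exact mem_iUnion₂.2 ⟨γ, ⟨hγ, mem_univ _⟩, hxγ⟩
  refine h1.of_mk_le ?_
  rw [Cardinal.lift_id, Cardinal.lift_id, mk_TT]
  simpa using hι

end R594.Img
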